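import Mathlib
import Pool.Agent.Helper69.MF.StA

/-! Project MF, module LIN: area of graphs of linear functions. -/

set_option autoImplicit false

open Set Topology Filter MeasureTheory
open Pool.Agent.Helper31.CY Pool.Agent.Helper69.MF

namespace Pool.Agent.Helper7.MF

abbrev V2 : Type := EuclideanSpace ℝ (Fin 2)

theorem norm_sq3 (x : E3) : ‖x‖ ^ 2 = dt x x := by
  rw [EuclideanSpace.norm_sq_eq]
  simp only [Fin.sum_univ_three, Real.norm_eq_abs, sq_abs, dt]
  ring

theorem dt_lc (f g : E3) (s t : ℝ) :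
    dt (s • f + t • g) (s • f + t • g) = s ^ 2 * dt f f + 2 * (s * t) * dt f g + t ^ 2 * dt g g := by
  simp only [dt, PiLp.add_apply, PiLp.smul_apply, smul_eq_mul]
  ring

/-- the isometry given by two orthonormal vectors -/
noncomputable def iso (f g : E3) (h1 : dt f f = 1) (h2 : dt g g = 1) (h3 : dt f g = 0) :
    V2 →ₗᵢ[ℝ] E3 where
  toFun y := y 0 • f + y 1 • g
  map_add' x y := by
    simp only [PiLp.add_apply, add_smul]; abel
  map_smul' c x := by
    simp only [PiLp.smul_apply, smul_eq_mul, RingHom.id_apply, smul_add, smul_smul]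
  norm_map' y := by
    have h : ‖y 0 • f + y 1 • g‖ ^ 2 = ‖y‖ ^ 2 := by
      rw [norm_sq3, dt_lc, h1, h2, h3, EuclideanSpace.norm_sq_eq]
      simp only [Fin.sum_univ_two, Real.norm_eq_abs, sq_abs]
      ring
    exact (sq_eq_sq₀ (norm_nonneg _) (norm_nonneg _)).mp h

theorem ar_iso (f g : E3) (h1 : dt f f = 1) (h2 : dt g g = 1) (h3 : dt f g = 0) (A : Set V2) :
    ar (iso f g h1 h2 h3 '' A) = Measure.hausdorffMeasure 2 A := by
  unfold ar
  exact (iso f g h1 h2 h3).isometry.hausdorffMeasure_image (Or.inl (by norm_num)) A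

theorem haar2 : Measure.IsAddHaarMeasure (Measure.hausdorffMeasure 2 : Measure V2) := by
  have h := MeasureTheory.isAddHaarMeasure_hausdorffMeasure (E := V2)
  have h2 : ((Module.finrank ℝ V2 : ℕ) : ℝ) = 2 := by
    rw [finrank_euclideanSpace_fin]; norm_num
  rw [h2] at h
  exact h

/-- the triangular map -/
noncomputable def tri2 (a b r : ℝ) : V2 →ₗ[ℝ] V2 :=
  Matrix.toLin' !![a, b; 0, r] |>.comp (WithLp.linearEquiv 2 ℝ (Fin 2 → ℝ)).toLinearMap |> fun l =>
    (WithLp.linearEquiv 2 ℝ (Fin 2 → ℝ)).symm.toLinearMap.comp l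

theorem tri2_zero (a b r : ℝ) (y : V2) : (tri2 a b r y) 0 = a * y 0 + b * y 1 := by
  simp [tri2, Matrix.toLin'_apply, Matrix.mulVec, dotProduct, Fin.sum_univ_two]

theorem tri2_one (a b r : ℝ) (y : V2) : (tri2 a b r y) 1 = r * y 1 := by
  simp [tri2, Matrix.toLin'_apply, Matrix.mulVec, dotProduct, Fin.sum_univ_two]

theorem tri2_det (a b r : ℝ) : LinearMap.det (tri2 a b r) = a * r := by
  have h : tri2 a b r = (((WithLp.linearEquiv 2 ℝ (Fin 2 → ℝ)).symm : (Fin 2 → ℝ) ≃ₗ[ℝ] V2) :
      (Fin 2 → ℝ) →ₗ[ℝ] V2) ∘ₗ (Matrix.toLin' !![a, b; 0, r]) ∘ₗ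
      ((((WithLp.linearEquiv 2 ℝ (Fin 2 → ℝ)).symm : (Fin 2 → ℝ) ≃ₗ[ℝ] V2).symm : V2 ≃ₗ[ℝ] (Fin 2 → ℝ)) :
        V2 →ₗ[ℝ] (Fin 2 → ℝ)) := rfl
  rw [h, LinearMap.det_conj, LinearMap.det_toLin', Matrix.det_fin_two_of]
  ring

/-- coordinates -/
noncomputable def cd (y : V2) : ℝ × ℝ := (y 0, y 1)

theorem cd_cont : Continuous cd := by
  unfold cd; fun_prop

theorem cd_surj (A : Set (ℝ × ℝ)) : cd '' (cd ⁻¹' A) = A := by
  apply Set.image_preimage_eq
  intro q
  exact ⟨!₂[q.1, q.2], by simp [cd]⟩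

theorem img (F : ℝ × ℝ → E3) (A : Set (ℝ × ℝ)) : F '' A = (F ∘ cd) '' (cd ⁻¹' A) := by
  rw [Set.image_comp, cd_surj]

theorem hLIN : StLIN := by
  intro τ n k α β A hON hA
  obtain ⟨h1, h2, h3, h4, h5, h6⟩ := hON
  have hH := haar2
  set A' : Set V2 := cd ⁻¹' A with hA'
  have hJ0 : (fun q : ℝ × ℝ => q.1 • τ + q.2 • n) '' A = iso τ n h1 h2 h4 '' A' := by
    rw [img]; rfl
  have hM0 : ar ((fun q : ℝ × ℝ => q.1 • τ + q.2 • n) '' A) = Measure.hausdorffMeasure 2 A' := by
    rw [hJ0, ar_iso]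
  refine ⟨?_, ?_, ?_⟩
  · -- Gram-Schmidt
    set D : ℝ := 1 + α ^ 2 + β ^ 2 with hD
    have hDp : 0 < D := by positivity
    set a : ℝ := Real.sqrt (1 + α ^ 2) with ha
    have hap : 0 < a := Real.sqrt_pos.mpr (by positivity)
    have ha2 : a ^ 2 = 1 + α ^ 2 := Real.sq_sqrt (by positivity)
    set s : ℝ := Real.sqrt D with hs
    have hsp : 0 < s := Real.sqrt_pos.mpr hDp
    have hs2 : s ^ 2 = D := Real.sq_sqrt hDp.le
    set r : ℝ := s / a with hr
    have hrp : 0 < r := div_pos hsp hap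
    have hr2 : r ^ 2 * a ^ 2 = D := by
      rw [hr]; field_simp; exact hs2
    set b : ℝ := α * β / a with hb
    have hba : b * a = α * β := by rw [hb]; field_simp
    set f1 : E3 := (1 / a) • (τ + α • k) with hf1
    set f2 : E3 := (1 / r) • (n + β • k - b • f1) with hf2
    have eτ1 : dt (τ + α • k) (τ + α • k) = a ^ 2 := by
      have : dt (τ + α • k) (τ + α • k) = dt τ τ + 2 * α * dt τ k + α ^ 2 * dt k k := by
        simp only [dt, PiLp.add_apply, PiLp.smul_apply, smul_eq_mul]; ring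
      rw [this, h1, h3, h5, ha2]; ring
    have e11 : dt f1 f1 = 1 := by
      have : dt f1 f1 = (1 / a) ^ 2 * dt (τ + α • k) (τ + α • k) := by
        simp only [hf1, dt, PiLp.add_apply, PiLp.smul_apply, smul_eq_mul]; ring
      rw [this, eτ1]; field_simp
    have en1 : dt (n + β • k) f1 = b := by
      have : dt (n + β • k) f1 = (1 / a) * (dt τ n + α * dt n k + β * dt τ k + α * β * dt k k) := by
        simp only [hf1, dt, PiLp.add_apply, PiLp.smul_apply, smul_eq_mul]; ring
      rw [this, h3, h4, h5, h6, hb]; field_simp; ring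
    have enn : dt (n + β • k) (n + β • k) = 1 + β ^ 2 := by
      have : dt (n + β • k) (n + β • k) = dt n n + 2 * β * dt n k + β ^ 2 * dt k k := by
        simp only [dt, PiLp.add_apply, PiLp.smul_apply, smul_eq_mul]; ring
      rw [this, h2, h3, h6]; ring
    have e12 : dt f1 f2 = 0 := by
      have : dt f1 f2 = (1 / r) * (dt (n + β • k) f1 - b * dt f1 f1) := by
        simp only [hf2, dt, PiLp.add_apply, PiLp.sub_apply, PiLp.smul_apply, smul_eq_mul]; ring
      rw [this, en1, e11]; ring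
    have e22 : dt f2 f2 = 1 := by
      have : dt f2 f2 = (1 / r) ^ 2 * (dt (n + β • k) (n + β • k) - 2 * b * dt (n + β • k) f1
          + b ^ 2 * dt f1 f1) := by
        simp only [hf2, dt, PiLp.add_apply, PiLp.sub_apply, PiLp.smul_apply, smul_eq_mul]; ring
      rw [this, enn, en1, e11]
      have h7 : (1 + β ^ 2 - b ^ 2) * a ^ 2 = D := by
        have : b ^ 2 * a ^ 2 = α ^ 2 * β ^ 2 := by
          calc b ^ 2 * a ^ 2 = (b * a) ^ 2 := by ring
            _ = α ^ 2 * β ^ 2 := by rw [hba]; ring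
        rw [sub_mul, this, ha2, hD]; ring
      have h8 : 1 + β ^ 2 - b ^ 2 = r ^ 2 := by
        have ha0 : a ^ 2 ≠ 0 := by positivity
        have : (1 + β ^ 2 - b ^ 2) * a ^ 2 = r ^ 2 * a ^ 2 := by rw [h7, hr2]
        exact mul_right_cancel₀ ha0 this
      have : 1 + β ^ 2 - 2 * b * b + b ^ 2 * 1 = r ^ 2 := by rw [← h8]; ring
      rw [this]; field_simp
    have hJ : (fun q : ℝ × ℝ => q.1 • τ + q.2 • n + (α * q.1 + β * q.2) • k) '' A =
        iso f1 f2 e11 e22 e12 '' (tri2 a b r '' A') := by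
      rw [img, ← Set.image_comp]
      apply Set.image_congr
      intro y _
      show y 0 • τ + y 1 • n + (α * y 0 + β * y 1) • k
        = (tri2 a b r y) 0 • f1 + (tri2 a b r y) 1 • f2
      rw [tri2_zero, tri2_one]
      have ef2 : r • f2 = n + β • k - b • f1 := by
        rw [hf2, smul_smul, mul_one_div_cancel hrp.ne', one_smul]
      have ef1 : a • f1 = τ + α • k := by
        rw [hf1, smul_smul, mul_one_div_cancel hap.ne', one_smul]
      have : (a * y 0 + b * y 1) • f1 + (r * y 1) • f2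
          = y 0 • (a • f1) + y 1 • (b • f1 + r • f2) := by
        module
      rw [this, ef1, ef2]
      module
    rw [hJ, ar_iso, hM0, Measure.addHaar_image_linearMap, tri2_det]
    have h9 : |a * r| = s := by
      rw [abs_of_pos (by positivity), hr]; field_simp
    rw [h9]
  · intro hO hne
    rw [hM0]
    have hO' : IsOpen A' := hO.preimage cd_cont
    have hne' : A'.Nonempty := by
      obtain ⟨q, hq⟩ := hne
      exact ⟨!₂[q.1, q.2], by simpa [hA', cd] using hq⟩
    exact hO'.measure_pos _ hne'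
  · intro hB
    rw [hM0]
    have hB' : Bornology.IsBounded A' := by
      obtain ⟨R, hR⟩ := (isBounded_iff_forall_norm_le).mp hB
      rw [isBounded_iff_forall_norm_le]
      refine ⟨2 * |R|, fun y hy => ?_⟩
      have h := hR (cd y) hy
      have h0 : |y 0| ≤ |R| := by
        have := (norm_fst_le (cd y)).trans h
        have h' : |y 0| ≤ R := by simpa [cd] using this
        exact h'.trans (le_abs_self R)
      have h1 : |y 1| ≤ |R| := by
        have := (norm_snd_le (cd y)).trans h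
        have h' : |y 1| ≤ R := by simpa [cd] using this
        exact h'.trans (le_abs_self R)
      have hsq : ‖y‖ ^ 2 ≤ (2 * |R|) ^ 2 := by
        rw [EuclideanSpace.norm_sq_eq]
        simp only [Fin.sum_univ_two, Real.norm_eq_abs, sq_abs]
        have := sq_le_sq' (by linarith [abs_nonneg (y 0), abs_nonneg R]) h0
        have h2 := sq_le_sq' (by linarith [abs_nonneg (y 1), abs_nonneg R]) h1
        rw [sq_abs] at this h2
        nlinarith [sq_nonneg (|R|)]
      exact abs_le_of_sq_le_sq' hsq (by positivity) |>.2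
    exact hB'.measure_lt_top

end Pool.Agent.Helper7.MF
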